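import Mathlib

set_option autoImplicit false

/-!
For even `n ≥ 4` the minimum co-degree `m(n)` is `0`, so `|m(n) - n/2|` is unbounded.

Let `Q` consist of all triples which do not contain both of two fixed balls `x₀, y₀`.  Suppose `Q`
does not determine a non-minority ball.  Then for some answer function the minority classes (of size
at most `n/2 - 1`, as `n` is even) of the consistent colourings cover all balls.  In a minimal
subcover every member has a private ball.  Two classes cover at most `n - 2` balls, so there are at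
least three members, and if there are exactly three then each has two private balls.  Hence there
are three members with private balls different from `x₀`; the triple of these balls is a query,
and each of its balls is an invalid answer for one of the three colourings.
-/

namespace Pool.Agent.Results.MP_d92cd9_co.EvenCaseZero

open Finset

/-- `b` is a non-minority ball of the colouring `c`: at least `n/2` balls have its colour. -/
def NonMinority {n : ℕ} (c : Fin n → Bool) (b : Fin n) : Prop :=
  n ≤ 2 * (univ.filter (fun a => c a = c b)).card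

/-- `a` is a valid answer to the query `T` under `c`: `a ∈ T` and another ball of `T` has the
colour of `a`. -/
def ValidAnswer {n : ℕ} (c : Fin n → Bool) (T : Finset (Fin n)) (a : Fin n) : Prop :=
  a ∈ T ∧ ∃ b ∈ T, b ≠ a ∧ c b = c a

/-- A query set: a set of triples of balls. -/
def IsQuerySet {n : ℕ} (Q : Finset (Finset (Fin n))) : Prop := ∀ T ∈ Q, T.card = 3

/-- The query set `Q` determines a non-minority ball: there is a map `f` from answer functions to
balls such that `f α` is a non-minority ball of `c` whenever all answers of `α` are valid under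
`c`. -/
def Determines {n : ℕ} (Q : Finset (Finset (Fin n))) : Prop :=
  ∃ f : ({T // T ∈ Q} → Fin n) → Fin n, ∀ (c : Fin n → Bool) (α : {T // T ∈ Q} → Fin n),
    (∀ T : {T // T ∈ Q}, ValidAnswer c T.1 (α T)) → NonMinority c (f α)

/-- The co-degree of `x` and `y`. -/
def codeg {n : ℕ} (Q : Finset (Finset (Fin n))) (x y : Fin n) : ℕ :=
  (Q.filter (fun T => x ∈ T ∧ y ∈ T)).card

/-- The minimum co-degree. -/
noncomputable def minCodeg {n : ℕ} (Q : Finset (Finset (Fin n))) : ℕ :=
  sInf {d | ∃ x y : Fin n, x ≠ y ∧ d = codeg Q x y}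

/-- `m(n)`: the least minimum co-degree of a query set which determines a non-minority ball. -/
noncomputable def m (n : ℕ) : ℕ :=
  sInf {d | ∃ Q : Finset (Finset (Fin n)), IsQuerySet Q ∧ Determines Q ∧ d = minCodeg Q}

/-- All triples not containing both `x` and `y`. -/
def queries (n : ℕ) (x y : Fin n) : Finset (Finset (Fin n)) :=
  univ.filter (fun T => T.card = 3 ∧ ¬ (x ∈ T ∧ y ∈ T))

theorem exists_ball {n : ℕ} (hn : Even n) (x y : Fin n)
    (α : {T // T ∈ queries n x y} → Fin n) :
    ∃ b : Fin n, ∀ c : Fin n → Bool,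
      (∀ T : {T // T ∈ queries n x y}, ValidAnswer c T.1 (α T)) → NonMinority c b := by
  classical
  by_contra hcon
  push Not at hcon
  -- minority classes of consistent colourings
  let IsM : Finset (Fin n) → Prop := fun M => ∃ (c : Fin n → Bool) (v : Bool),
    (∀ T : {T // T ∈ queries n x y}, ValidAnswer c T.1 (α T)) ∧
      M = univ.filter (fun a => c a = v) ∧ 2 * M.card + 2 ≤ n
  let IsC : Finset (Finset (Fin n)) → Prop := fun S => (∀ M ∈ S, IsM M) ∧ ∀ b, ∃ M ∈ S, b ∈ M
  have hcover : ∃ k, ∃ S, IsC S ∧ S.card = k := by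
    refine ⟨_, univ.filter IsM, ⟨?_, ?_⟩, rfl⟩
    · intro M hM
      exact (mem_filter.1 hM).2
    · intro b
      obtain ⟨c, hc, hb⟩ := hcon b
      refine ⟨univ.filter (fun a => c a = c b), ?_, by simp⟩
      rw [mem_filter]
      refine ⟨mem_univ _, c, c b, hc, rfl, ?_⟩
      unfold NonMinority at hb
      obtain ⟨k, rfl⟩ := hn
      omega
  obtain ⟨S, hS, hcard⟩ := Nat.find_spec hcover
  have hmin : ∀ S', IsC S' → S.card ≤ S'.card := by
    intro S' hS'
    rw [hcard]
    exact Nat.find_min' hcover ⟨S', hS', rfl⟩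
  -- private balls
  let Pr : Finset (Fin n) → Finset (Fin n) := fun M =>
    univ.filter (fun b => b ∈ M ∧ ∀ M' ∈ S, b ∈ M' → M' = M)
  have hPr : ∀ M ∈ S, (Pr M).Nonempty := by
    intro M hM
    by_contra hne
    rw [not_nonempty_iff_eq_empty] at hne
    have h1 : IsC (S.erase M) := by
      refine ⟨fun M' hM' => hS.1 M' (mem_of_mem_erase hM'), fun b => ?_⟩
      obtain ⟨M', hM', hb⟩ := hS.2 b
      by_cases h : M' = M
      · subst h
        have : b ∉ Pr M' := by rw [hne]; exact notMem_empty b
        simp only [Pr, mem_filter, mem_univ, true_and, not_and, not_forall] at this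
        obtain ⟨M'', hM'', hb'', hne''⟩ := this hb
        exact ⟨M'', mem_erase.2 ⟨hne'', hM''⟩, hb''⟩
      · exact ⟨M', mem_erase.2 ⟨h, hM'⟩, hb⟩
    have h2 := hmin _ h1
    rw [card_erase_of_mem hM] at h2
    have h3 : 0 < S.card := card_pos.2 ⟨M, hM⟩
    omega
  have hsmall : ∀ M ∈ S, 2 * M.card + 2 ≤ n := by
    intro M hM
    obtain ⟨c, v, -, -, h⟩ := hS.1 M hM
    exact h
  -- at least three members
  have h3 : 3 ≤ S.card := by
    by_contra hlt
    have hunion : (univ : Finset (Fin n)) ⊆ S.biUnion id := by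
      intro b _
      obtain ⟨M, hM, hb⟩ := hS.2 b
      exact mem_biUnion.2 ⟨M, hM, hb⟩
    have e1 := card_le_card hunion
    rw [card_univ, Fintype.card_fin] at e1
    have e2 : (S.biUnion id).card ≤ ∑ M ∈ S, M.card := card_biUnion_le
    have e3 : 2 * ∑ M ∈ S, M.card + 2 * S.card ≤ S.card * n := by
      have : ∑ M ∈ S, (2 * M.card + 2) ≤ ∑ _M ∈ S, n := sum_le_sum hsmall
      rw [sum_add_distrib, ← mul_sum, sum_const, sum_const, smul_eq_mul, smul_eq_mul] at this
      linarith
    have hS2 : S.card ≤ 2 := by omega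
    have hn0 : 0 < n := x.pos
    interval_cases hk : S.card
    · omega
    · omega
    · omega
  -- if there are three, each has two private balls
  have htwo : S.card = 3 → ∀ M ∈ S, 2 ≤ (Pr M).card := by
    intro hk M hM
    have hunion : (univ : Finset (Fin n)) ⊆ Pr M ∪ (S.erase M).biUnion id := by
      intro b _
      by_cases hb : b ∈ Pr M
      · exact mem_union_left _ hb
      · apply mem_union_right
        simp only [Pr, mem_filter, mem_univ, true_and, not_and, not_forall] at hb
        obtain ⟨M', hM', hb'⟩ := hS.2 b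
        by_cases h : M' = M
        · subst h
          obtain ⟨M'', hM'', hb'', hne''⟩ := hb hb'
          exact mem_biUnion.2 ⟨M'', mem_erase.2 ⟨hne'', hM''⟩, hb''⟩
        · exact mem_biUnion.2 ⟨M', mem_erase.2 ⟨h, hM'⟩, hb'⟩
    have e1 := card_le_card hunion
    rw [card_univ, Fintype.card_fin] at e1
    have e2 : ((S.erase M).biUnion id).card ≤ ∑ M ∈ S.erase M, M.card := card_biUnion_le
    have e3 : 2 * ∑ M ∈ S.erase M, M.card + 2 * (S.erase M).card ≤ (S.erase M).card * n := by
      have : ∑ M ∈ S.erase M, (2 * M.card + 2) ≤ ∑ _M ∈ S.erase M, n :=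
        sum_le_sum (fun M hM => hsmall M (mem_of_mem_erase hM))
      rw [sum_add_distrib, ← mul_sum, sum_const, sum_const, smul_eq_mul, smul_eq_mul] at this
      linarith
    have e4 := card_union_le (Pr M) ((S.erase M).biUnion id)
    rw [card_erase_of_mem hM, hk] at e3
    omega
  -- members with a private ball different from `x`
  let S' : Finset (Finset (Fin n)) := S.filter (fun M => ∃ p ∈ Pr M, p ≠ x)
  have hS' : 2 < S'.card := by
    have hbad : (S.filter (fun M => ¬ ∃ p ∈ Pr M, p ≠ x)).card ≤ 1 := by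
      rw [card_le_one]
      intro M hM M' hM'
      rw [mem_filter] at hM hM'
      obtain ⟨p, hp⟩ := hPr M hM.1
      obtain ⟨p', hp'⟩ := hPr M' hM'.1
      have e1 : p = x := by
        by_contra h
        exact hM.2 ⟨p, hp, h⟩
      have e2 : p' = x := by
        by_contra h
        exact hM'.2 ⟨p', hp', h⟩
      subst e1
      subst e2
      simp only [Pr, mem_filter, mem_univ, true_and] at hp hp'
      exact hp'.2 M hM.1 hp.1
    have hsum : S'.card + (S.filter (fun M => ¬ ∃ p ∈ Pr M, p ≠ x)).card = S.card :=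
      card_filter_add_card_filter_not _
    rcases Nat.lt_or_ge 3 S.card with h | h
    · omega
    · have hk : S.card = 3 := by omega
      have : S.filter (fun M => ¬ ∃ p ∈ Pr M, p ≠ x) = ∅ := by
        rw [filter_eq_empty_iff]
        intro M hM
        rw [not_not]
        have := htwo hk M hM
        obtain ⟨a, ha, b, hb, hab⟩ := one_lt_card.1 (show 1 < (Pr M).card by omega)
        by_cases hax : a = x
        · exact ⟨b, hb, fun h => hab (hax.trans h.symm)⟩
        · exact ⟨a, ha, hax⟩
      rw [this] at hsum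
      simp at hsum
      omega
  obtain ⟨M1, h1, M2, h2, M3, h3', h12, h13, h23⟩ := two_lt_card.1 hS'
  rw [mem_filter] at h1 h2 h3'
  obtain ⟨hM1, p1, hp1, hx1⟩ := h1
  obtain ⟨hM2, p2, hp2, hx2⟩ := h2
  obtain ⟨hM3, p3, hp3, hx3⟩ := h3'
  simp only [Pr, mem_filter, mem_univ, true_and] at hp1 hp2 hp3
  have n12 : p1 ∉ M2 := fun h => h12 (hp1.2 M2 hM2 h).symm
  have n13 : p1 ∉ M3 := fun h => h13 (hp1.2 M3 hM3 h).symm
  have n21 : p2 ∉ M1 := fun h => h12 (hp2.2 M1 hM1 h)
  have n23 : p2 ∉ M3 := fun h => h23 (hp2.2 M3 hM3 h).symm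
  have n31 : p3 ∉ M1 := fun h => h13 (hp3.2 M1 hM1 h)
  have n32 : p3 ∉ M2 := fun h => h23 (hp3.2 M2 hM2 h)
  have d12 : p1 ≠ p2 := fun h => n12 (h ▸ hp2.1)
  have d13 : p1 ≠ p3 := fun h => n13 (h ▸ hp3.1)
  have d23 : p2 ≠ p3 := fun h => n23 (h ▸ hp3.1)
  have hT : ({p1, p2, p3} : Finset (Fin n)) ∈ queries n x y := by
    simp only [queries, mem_filter, mem_univ, true_and]
    refine ⟨card_eq_three.2 ⟨p1, p2, p3, d12, d13, d23, rfl⟩, ?_⟩
    rintro ⟨h, -⟩
    simp only [mem_insert, mem_singleton] at h
    rcases h with h | h | h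
    · exact hx1 h.symm
    · exact hx2 h.symm
    · exact hx3 h.symm
  -- the key contradiction
  have bad : ∀ (M : Finset (Fin n)) (a : Fin n), M ∈ S → a ∈ M →
      (∀ b ∈ ({p1, p2, p3} : Finset (Fin n)), b ≠ a → b ∉ M) →
      α ⟨{p1, p2, p3}, hT⟩ ≠ a := by
    intro M a hM ha hb hα
    obtain ⟨c, v, hc, rfl, -⟩ := hS.1 M hM
    obtain ⟨-, b, hbT, hba, hcb⟩ := hc ⟨{p1, p2, p3}, hT⟩
    rw [hα] at hba hcb
    apply hb b hbT hba
    rw [mem_filter] at ha ⊢
    exact ⟨mem_univ _, hcb.trans ha.2⟩
  obtain ⟨c0, v0, hc0, -, -⟩ := hS.1 M1 hM1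
  have hα := (hc0 ⟨{p1, p2, p3}, hT⟩).1
  simp only [mem_insert, mem_singleton] at hα
  rcases hα with hα | hα | hα
  · refine bad M1 p1 hM1 hp1.1 ?_ hα
    intro b hb hne
    simp only [mem_insert, mem_singleton] at hb
    rcases hb with rfl | rfl | rfl
    · exact absurd rfl hne
    · exact n21
    · exact n31
  · refine bad M2 p2 hM2 hp2.1 ?_ hα
    intro b hb hne
    simp only [mem_insert, mem_singleton] at hb
    rcases hb with rfl | rfl | rfl
    · exact n12
    · exact absurd rfl hne
    · exact n32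
  · refine bad M3 p3 hM3 hp3.1 ?_ hα
    intro b hb hne
    simp only [mem_insert, mem_singleton] at hb
    rcases hb with rfl | rfl | rfl
    · exact n13
    · exact n23
    · exact absurd rfl hne

theorem determines {n : ℕ} (hn : Even n) (x y : Fin n) : Determines (queries n x y) := by
  classical
  refine ⟨fun α => (exists_ball hn x y α).choose, fun c α h => ?_⟩
  exact (exists_ball hn x y α).choose_spec c h

theorem codeg_queries (n : ℕ) (x y : Fin n) : codeg (queries n x y) x y = 0 := by
  simp only [codeg, card_eq_zero, filter_eq_empty_iff, queries, mem_filter, mem_univ, true_and]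
  rintro T ⟨-, h⟩
  exact h

theorem minCodeg_queries {n : ℕ} (x y : Fin n) (hxy : x ≠ y) : minCodeg (queries n x y) = 0 := by
  unfold minCodeg
  exact Nat.sInf_eq_zero.2 (Or.inl ⟨x, y, hxy, (codeg_queries n x y).symm⟩)

/-- For every even `n ≥ 4` some query set determining a non-minority ball has two balls of
co-degree `0`, so `m(n) = 0`.  Consequently there is no constant `C` with `|m(n) - n/2| ≤ C` for
all `n ≥ 3`. -/
theorem result :
    (∀ n : ℕ, Even n → 4 ≤ n →
      (∃ Q : Finset (Finset (Fin n)), IsQuerySet Q ∧ Determines Q ∧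
        ∃ x y : Fin n, x ≠ y ∧ codeg Q x y = 0) ∧ m n = 0) ∧
    ¬ ∃ C : ℝ, ∀ n : ℕ, 3 ≤ n → |(m n : ℝ) - (n : ℝ) / 2| ≤ C := by
  have h1 : ∀ n : ℕ, Even n → 4 ≤ n →
      (∃ Q : Finset (Finset (Fin n)), IsQuerySet Q ∧ Determines Q ∧
        ∃ x y : Fin n, x ≠ y ∧ codeg Q x y = 0) ∧ m n = 0 := by
    intro n hn h4
    have hxy : (⟨0, by omega⟩ : Fin n) ≠ ⟨1, by omega⟩ := by simp
    have hq : IsQuerySet (queries n ⟨0, by omega⟩ ⟨1, by omega⟩) := by
      intro T hT
      exact (mem_filter.1 hT).2.1
    refine ⟨⟨_, hq, determines hn _ _, _, _, hxy, codeg_queries n _ _⟩, ?_⟩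
    unfold m
    exact Nat.sInf_eq_zero.2 (Or.inl ⟨_, hq, determines hn _ _, (minCodeg_queries _ _ hxy).symm⟩)
  refine ⟨h1, ?_⟩
  rintro ⟨C, hC⟩
  obtain ⟨k, hk⟩ := exists_nat_gt C
  have h2 := hC (2 * (k + 2)) (by omega)
  rw [(h1 (2 * (k + 2)) (even_two_mul _) (by omega)).2] at h2
  push_cast at h2
  rw [abs_le] at h2
  linarith [h2.1]

end Pool.Agent.Results.MP_d92cd9_co.EvenCaseZero
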